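import Pool.Agent.Helper51.Hart.Defs2

/-! Auxiliary facts on circular averages and on the class `CR` (HT-22, HT-23). -/

set_option autoImplicit false

noncomputable section

open Set Metric Complex MeasureTheory

namespace Pool.Helper51.Hart

variable {ρ : ℂ × ℂ → ℝ}

theorem h19_periodic (H : ℂ → ℂ) (R : ℂ) :
    Function.Periodic (fun θ : ℝ => H (R * Complex.exp (θ * I))) (2 * Real.pi) := by
  intro θ
  have h : Complex.exp (((θ + 2 * Real.pi : ℝ) : ℂ) * I) = Complex.exp (θ * I) := by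
    push_cast
    rw [add_mul, Complex.exp_add, Complex.exp_two_pi_mul_I, mul_one]
  show H (R * Complex.exp (((θ + 2 * Real.pi : ℝ) : ℂ) * I)) = H (R * Complex.exp (θ * I))
  rw [h]

theorem h19_rot (H : ℂ → ℂ) (z : ℂ) :
    ∫ θ in (0 : ℝ)..(2 * Real.pi), H (Complex.exp (θ * I) * z) =
      ∫ θ in (0 : ℝ)..(2 * Real.pi), H (((‖z‖ : ℝ) : ℂ) * Complex.exp (θ * I)) := by
  have h1 : ∀ θ : ℝ, Complex.exp (θ * I) * z =
      ((‖z‖ : ℝ) : ℂ) * Complex.exp (((θ + z.arg : ℝ) : ℂ) * I) := by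
    intro θ
    conv_lhs => rw [← norm_mul_exp_arg_mul_I z]
    push_cast
    rw [add_mul, Complex.exp_add]
    ring
  have h2 : (∫ θ in (0 : ℝ)..(2 * Real.pi), H (Complex.exp (θ * I) * z)) =
      ∫ θ in (0 : ℝ)..(2 * Real.pi),
        (fun x : ℝ => H (((‖z‖ : ℝ) : ℂ) * Complex.exp (x * I))) (θ + z.arg) := by
    refine intervalIntegral.integral_congr fun θ _ => ?_
    show H (Complex.exp (θ * I) * z) = _
    rw [h1]
  rw [h2, intervalIntegral.integral_comp_add_right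
    (fun x : ℝ => H (((‖z‖ : ℝ) : ℂ) * Complex.exp (x * I))) z.arg]
  have h3 := (h19_periodic H ((‖z‖ : ℝ) : ℂ)).intervalIntegral_add_eq z.arg 0
  rw [zero_add] at h3
  rw [zero_add, add_comm (2 * Real.pi)]
  exact h3

theorem h19_lin {F : ℂ × ℂ → ℂ} (hF : CR ρ F) {p : ℂ × ℂ} (hp : ρ p ≤ 0) (c : ℂ) (v : ℂ × ℂ) :
    fderiv ℝ F p (c • v) = c * fderiv ℝ F p v := by
  have h1 : c • v = c.re • v + c.im • (I • v) := by
    have h2 : c = (c.re : ℂ) + (c.im : ℂ) * I := (Complex.re_add_im c).symm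
    conv_lhs => rw [h2]
    rw [add_smul, mul_smul]
    rfl
  rw [h1, map_add, map_smul, map_smul, hF.2 p hp, Complex.real_smul, Complex.real_smul]
  conv_rhs => rw [← Complex.re_add_im c]
  ring

theorem h19_linz {F : ℂ × ℂ → ℂ} (hF : CR ρ F) {p : ℂ × ℂ} (hp : ρ p ≤ 0) (c : ℂ) :
    fderiv ℝ F p (c, 0) = c * Dz F p := by
  have h := h19_lin hF hp c ((1, 0) : ℂ × ℂ)
  rw [Prod.smul_mk, smul_zero, smul_eq_mul, mul_one] at h
  exact h

theorem h19_linw {F : ℂ × ℂ → ℂ} (hF : CR ρ F) {p : ℂ × ℂ} (hp : ρ p ≤ 0) (c : ℂ) :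
    fderiv ℝ F p (0, c) = c * Dw F p := by
  have h := h19_lin hF hp c ((0, 1) : ℂ × ℂ)
  rw [Prod.smul_mk, smul_zero, smul_eq_mul, mul_one] at h
  exact h

theorem h19_hasF {F : ℂ × ℂ → ℂ} (hF : CR ρ F) (p : ℂ × ℂ) :
    HasFDerivAt F (fderiv ℝ F p) p :=
  ((hF.1.differentiable (by simp)) p).hasFDerivAt

theorem h19_cont {F : ℂ × ℂ → ℂ} (hF : CR ρ F) : Continuous F := hF.1.continuous

theorem h19_contDz {F : ℂ × ℂ → ℂ} (hF : CR ρ F) : Continuous (Dz F) :=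
  (hF.1.continuous_fderiv (by simp)).clm_apply continuous_const

theorem h19_contDw {F : ℂ × ℂ → ℂ} (hF : CR ρ F) : Continuous (Dw F) :=
  (hF.1.continuous_fderiv (by simp)).clm_apply continuous_const

theorem h19_circle (hf : HFacts ρ) {z w : ℂ} (h : ρ (z, w) ≤ 0) (θ : ℝ) :
    ρ (Complex.exp (θ * I) * z, w) ≤ 0 :=
  hf.inv_le _ z w (Complex.norm_exp_ofReal_mul_I θ) h

end Pool.Helper51.Hart
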