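import Pool.Agent.Helper19.Hart.CRAux

/-! HT-23: Fourier coefficients with respect to the rotations of the first variable. -/

set_option autoImplicit false

noncomputable section

open Set Metric Complex MeasureTheory

namespace Pool.Helper51.Hart

variable {ρ : ℂ × ℂ → ℝ}

theorem fc_neg {g : ℂ × ℂ → ℂ} (k : ℕ) :
    ∀ z w, z ^ k * fc g (-(k : ℤ)) z w = avg (fun p => p.1 ^ k * g p) ‖z‖ w := by
  intro z w
  have h1 := h19_rot (fun ζ => ζ ^ k * g (ζ, w)) z
  have h2 : avg (fun p => p.1 ^ k * g p) ‖z‖ w = (2 * Real.pi : ℂ)⁻¹ *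
      ∫ θ in (0 : ℝ)..(2 * Real.pi), (fun ζ => ζ ^ k * g (ζ, w))
        (((‖z‖ : ℝ) : ℂ) * Complex.exp (θ * I)) := rfl
  rw [h2, ← h1, fc, mul_left_comm, ← intervalIntegral.integral_const_mul]
  congr 1
  refine intervalIntegral.integral_congr fun θ _ => ?_
  show z ^ k * (g (Complex.exp (θ * I) * z, w) * Complex.exp (-(((-(k : ℤ) : ℤ) : ℂ) * θ * I))) =
    (Complex.exp (θ * I) * z) ^ k * g (Complex.exp (θ * I) * z, w)
  have h3 : Complex.exp (-(((-(k : ℤ) : ℤ) : ℂ) * θ * I)) = Complex.exp (θ * I) ^ k := by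
    rw [← Complex.exp_nat_mul]
    congr 1
    push_cast
    ring
  rw [h3, mul_pow]
  ring

/-- integration by parts on a circle -/
theorem h19_fc_succ (hf : HFacts ρ) {g : ℂ × ℂ → ℂ} (hg : CR ρ g) (k : ℕ) {z w : ℂ}
    (h : ρ (z, w) ≤ 0) :
    fc g ((k + 1 : ℕ) : ℤ) z w = z / (k + 1) * fc (Dz g) k z w := by
  have hd : ∀ θ : ℝ, HasDerivAt (fun θ : ℝ => g (Complex.exp (θ * I) * z, w) *
      Complex.exp (-(((k : ℂ) + 1) * θ * I)))
      ((Complex.exp (θ * I) * I * z * Dz g (Complex.exp (θ * I) * z, w)) *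
        Complex.exp (-(((k : ℂ) + 1) * θ * I)) +
        g (Complex.exp (θ * I) * z, w) *
          (Complex.exp (-(((k : ℂ) + 1) * θ * I)) * (-(((k : ℂ) + 1) * I)))) θ := by
    intro θ
    have e0 : HasDerivAt (fun θ : ℝ => (θ : ℂ) * I) I θ := by
      simpa using (Complex.ofRealCLM.hasDerivAt (x := θ)).mul_const I
    have e1 : HasDerivAt (fun θ : ℝ => Complex.exp (θ * I) * z)
        (Complex.exp (θ * I) * I * z) θ := (e0.cexp).mul_const z
    have e2 : HasDerivAt (fun θ : ℝ => (Complex.exp (θ * I) * z, w))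
        (Complex.exp (θ * I) * I * z, 0) θ := e1.prodMk (hasDerivAt_const θ w)
    have e3 := (h19_hasF hg (Complex.exp (θ * I) * z, w)).comp_hasDerivAt θ e2
    rw [h19_linz hg (h19_circle hf h θ)] at e3
    have e4 : HasDerivAt (fun θ : ℝ => -(((k : ℂ) + 1) * θ * I)) (-(((k : ℂ) + 1) * I)) θ := by
      have := (e0.const_mul ((k : ℂ) + 1)).neg
      refine this.congr_of_eventuallyEq (Filter.Eventually.of_forall fun x => ?_)
      show -(((k : ℂ) + 1) * x * I) = -(((k : ℂ) + 1) * (x * I))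
      ring
    exact e3.mul e4.cexp
  have hc1 : Continuous fun θ : ℝ => (Complex.exp (θ * I) * z, w) := by fun_prop
  have hcg : Continuous fun θ : ℝ => g (Complex.exp (θ * I) * z, w) := (h19_cont hg).comp hc1
  have hcd : Continuous fun θ : ℝ => Dz g (Complex.exp (θ * I) * z, w) :=
    (h19_contDz hg).comp hc1
  have hce : Continuous fun θ : ℝ => Complex.exp (-(((k : ℂ) + 1) * θ * I)) := by fun_prop
  have hce1 : Continuous fun θ : ℝ => Complex.exp (θ * I) := by fun_prop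
  have hi1 : IntervalIntegrable (fun θ : ℝ => (Complex.exp (θ * I) * I * z *
      Dz g (Complex.exp (θ * I) * z, w)) * Complex.exp (-(((k : ℂ) + 1) * θ * I))) volume 0
      (2 * Real.pi) :=
    ((((hce1.mul continuous_const).mul continuous_const).mul hcd).mul hce).intervalIntegrable _ _
  have hi2 : IntervalIntegrable (fun θ : ℝ => g (Complex.exp (θ * I) * z, w) *
      (Complex.exp (-(((k : ℂ) + 1) * θ * I)) * (-(((k : ℂ) + 1) * I)))) volume 0
      (2 * Real.pi) :=
    (hcg.mul (hce.mul continuous_const)).intervalIntegrable _ _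
  have hI := intervalIntegral.integral_eq_sub_of_hasDerivAt (fun θ _ => hd θ) (hi1.add hi2)
  rw [intervalIntegral.integral_add hi1 hi2] at hI
  have hend : Complex.exp (((2 * Real.pi : ℝ) : ℂ) * I) = 1 := by
    push_cast
    exact Complex.exp_two_pi_mul_I
  have hend2 : Complex.exp (-(((k : ℂ) + 1) * ((2 * Real.pi : ℝ) : ℂ) * I)) = 1 := by
    rw [Complex.exp_eq_one_iff]
    refine ⟨-((k : ℤ) + 1), ?_⟩
    push_cast
    ring
  have hend3 : Complex.exp (-(((k : ℂ) + 1) * ((0 : ℝ) : ℂ) * I)) = 1 := by simp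
  have hend4 : Complex.exp (((0 : ℝ) : ℂ) * I) = 1 := by simp
  rw [hend, hend2, hend3, hend4, sub_self] at hI
  have a1 : (∫ θ in (0 : ℝ)..(2 * Real.pi), (Complex.exp (θ * I) * I * z *
      Dz g (Complex.exp (θ * I) * z, w)) * Complex.exp (-(((k : ℂ) + 1) * θ * I))) =
      I * z * ∫ θ in (0 : ℝ)..(2 * Real.pi), Dz g (Complex.exp (θ * I) * z, w) *
        Complex.exp (-(((k : ℤ) : ℂ) * θ * I)) := by
    rw [← intervalIntegral.integral_const_mul]
    refine intervalIntegral.integral_congr fun θ _ => ?_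
    show (Complex.exp (θ * I) * I * z * Dz g (Complex.exp (θ * I) * z, w)) *
      Complex.exp (-(((k : ℂ) + 1) * θ * I)) = I * z * (Dz g (Complex.exp (θ * I) * z, w) *
        Complex.exp (-(((k : ℤ) : ℂ) * θ * I)))
    have : Complex.exp (-(((k : ℤ) : ℂ) * θ * I)) =
        Complex.exp (θ * I) * Complex.exp (-(((k : ℂ) + 1) * θ * I)) := by
      rw [← Complex.exp_add]
      congr 1
      push_cast
      ring
    rw [this]
    ring
  have a2 : (∫ θ in (0 : ℝ)..(2 * Real.pi), g (Complex.exp (θ * I) * z, w) *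
      (Complex.exp (-(((k : ℂ) + 1) * θ * I)) * (-(((k : ℂ) + 1) * I)))) =
      -(((k : ℂ) + 1) * I) * ∫ θ in (0 : ℝ)..(2 * Real.pi), g (Complex.exp (θ * I) * z, w) *
        Complex.exp (-((((k + 1 : ℕ) : ℤ) : ℂ) * θ * I)) := by
    rw [← intervalIntegral.integral_const_mul]
    refine intervalIntegral.integral_congr fun θ _ => ?_
    show g (Complex.exp (θ * I) * z, w) *
      (Complex.exp (-(((k : ℂ) + 1) * θ * I)) * (-(((k : ℂ) + 1) * I))) =
      -(((k : ℂ) + 1) * I) * (g (Complex.exp (θ * I) * z, w) *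
        Complex.exp (-((((k + 1 : ℕ) : ℤ) : ℂ) * θ * I)))
    push_cast
    ring
  rw [a1, a2] at hI
  unfold fc
  set A := ∫ θ in (0 : ℝ)..(2 * Real.pi), Dz g (Complex.exp (θ * I) * z, w) *
        Complex.exp (-(((k : ℤ) : ℂ) * θ * I)) with hA
  set B := ∫ θ in (0 : ℝ)..(2 * Real.pi), g (Complex.exp (θ * I) * z, w) *
        Complex.exp (-((((k + 1 : ℕ) : ℤ) : ℂ) * θ * I)) with hB
  have hk : (k : ℂ) + 1 ≠ 0 := Nat.cast_add_one_ne_zero k
  have hB2 : B = z / (k + 1) * A := by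
    have h5 : I * (((k : ℂ) + 1) * B) = I * (z * A) := by linear_combination -hI
    have h6 := mul_left_cancel₀ Complex.I_ne_zero h5
    field_simp
    linear_combination h6
  rw [hB2]
  ring

theorem fc_nonneg (hf : HFacts ρ) (hdz : ∀ F, CR ρ F → CR ρ (Dz F))
    (hsm : ∀ (c : ℂ) F, CR ρ F → CR ρ (fun p => c * F p)) {g : ℂ × ℂ → ℂ} (hg : CR ρ g) (k : ℕ) :
    ∃ F : ℂ × ℂ → ℂ, CR ρ F ∧ ∀ z w, ρ (z, w) ≤ 0 → fc g k z w = z ^ k * avg F ‖z‖ w := by
  induction k generalizing g with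
  | zero =>
    refine ⟨g, hg, fun z w _ => ?_⟩
    have h1 := fc_neg (g := g) 0 z w
    simp only [Nat.cast_zero, neg_zero, pow_zero, one_mul] at h1
    rw [pow_zero, one_mul]
    exact h1
  | succ k ih =>
    obtain ⟨F, hF, hF2⟩ := ih (hdz g hg)
    refine ⟨_, hsm ((k : ℂ) + 1)⁻¹ F hF, fun z w h => ?_⟩
    rw [h19_fc_succ hf hg k h, hF2 z w h]
    have h1 : avg (fun p => ((k : ℂ) + 1)⁻¹ * F p) ‖z‖ w = ((k : ℂ) + 1)⁻¹ * avg F ‖z‖ w := by
      rw [avg, avg, intervalIntegral.integral_const_mul]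
      ring
    rw [h1, pow_succ]
    ring

end Pool.Helper51.Hart
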