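import Pool.Agent.Helper19.Hart.CRAux

/-! HT-22: circular averages of functions of class `CR` form a system of jets. -/

set_option autoImplicit false

noncomputable section

open Set Metric Complex MeasureTheory

namespace Pool.Helper51.Hart

variable {ρ : ℂ × ℂ → ℝ}

theorem h19_holz {F : ℂ × ℂ → ℂ} (hF : CR ρ F) {z w : ℂ} (h : ρ (z, w) ≤ 0) :
    DifferentiableAt ℂ (fun ζ => F (ζ, w)) z := by
  have h1 : HasFDerivAt (fun ζ : ℂ => (ζ, w)) (ContinuousLinearMap.inl ℝ ℂ ℂ) z :=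
    hasFDerivAt_prodMk_left z w
  have h2 := (h19_hasF hF (z, w)).comp z h1
  have h3 : HasFDerivAt (fun ζ => F (ζ, w))
      (ContinuousLinearMap.toSpanSingleton ℂ (Dz F (z, w)) : ℂ →L[ℂ] ℂ) z := by
    refine hasFDerivAt_of_restrictScalars ℝ h2 ?_
    ext c
    show c • Dz F (z, w) = fderiv ℝ F (z, w) (c, 0)
    rw [h19_linz hF h, smul_eq_mul]
  exact h3.differentiableAt

/-- the average as a circle integral -/
theorem h19_avg_circle (F : ℂ × ℂ → ℂ) {r : ℝ} (hr : 0 < r) (w : ℂ) :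
    (∮ z in C(0, r), (z - 0)⁻¹ • F (z, w)) = 2 * Real.pi * I * avg F r w := by
  have h1 : (∮ z in C(0, r), (z - 0)⁻¹ • F (z, w)) =
      ∫ θ in (0 : ℝ)..(2 * Real.pi), I * F (r * Complex.exp (θ * I), w) := by
    unfold circleIntegral
    refine intervalIntegral.integral_congr fun θ _ => ?_
    show deriv (circleMap 0 r) θ • ((circleMap 0 r θ - 0)⁻¹ • F (circleMap 0 r θ, w)) =
      I * F (r * Complex.exp (θ * I), w)
    have h2 : circleMap 0 r θ = r * Complex.exp (θ * I) := by simp [circleMap]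
    have h3 : circleMap 0 r θ ≠ 0 := by
      rw [h2]
      exact mul_ne_zero (by exact_mod_cast hr.ne') (Complex.exp_ne_zero _)
    rw [deriv_circleMap, sub_zero, smul_eq_mul, smul_eq_mul, ← mul_assoc, ← h2]
    field_simp
  rw [h1, intervalIntegral.integral_const_mul, avg]
  have hpi : (2 * Real.pi : ℂ) ≠ 0 := by
    have := Real.pi_ne_zero
    exact_mod_cast mul_ne_zero two_ne_zero this
  field_simp

theorem h19_avg_zero (F : ℂ × ℂ → ℂ) (w : ℂ) : avg F 0 w = F (0, w) := by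
  rw [avg]
  simp only [Complex.ofReal_zero, zero_mul, intervalIntegral.integral_const, sub_zero]
  have hpi : (2 * Real.pi : ℂ) ≠ 0 := by
    have := Real.pi_ne_zero
    exact_mod_cast mul_ne_zero two_ne_zero this
  rw [Complex.real_smul]
  push_cast
  field_simp

/-- the average is constant on vertical segments -/
theorem h19_fib (hf : HFacts ρ) {F : ℂ × ℂ → ℂ} (hF : CR ρ F) {r r' : ℝ} {w : ℂ} (hr : 0 ≤ r)
    (hrr : r ≤ r') (h : ∀ s ∈ Icc r r', sl ρ (s, w) ≤ 0) : avg F r w = avg F r' w := by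
  have hpi : (2 * Real.pi * I : ℂ) ≠ 0 := by
    have := Real.pi_ne_zero
    refine mul_ne_zero ?_ Complex.I_ne_zero
    exact_mod_cast mul_ne_zero two_ne_zero this
  have hρ : ∀ z : ℂ, r ≤ ‖z‖ → ‖z‖ ≤ r' → ρ (z, w) ≤ 0 := fun z h1 h2 =>
    (hf.norm_le z w).2 (h ‖z‖ ⟨h1, h2⟩)
  have hc : Continuous fun z => F (z, w) :=
    (h19_cont hF).comp (continuous_id.prodMk continuous_const)
  rcases hr.eq_or_lt with h0 | h0
  · rcases hrr.eq_or_lt with h1 | h1
    · rw [h1]
    · subst h0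
      have h2 := Complex.circleIntegral_sub_center_inv_smul_of_differentiable_on_off_countable
        (c := 0) h1 (f := fun z => F (z, w)) countable_empty hc.continuousOn
        (fun z hz => h19_holz hF (hρ z (norm_nonneg _) (mem_ball_zero_iff.1 hz.1).le))
      rw [h19_avg_circle F h1 w, smul_eq_mul] at h2
      rw [h19_avg_zero]
      exact (mul_left_cancel₀ hpi h2).symm
  · have h1 : 0 < r' := h0.trans_le hrr
    have h2 := Complex.circleIntegral_sub_center_inv_smul_eq_of_differentiable_on_annulus_off_countable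
        (c := 0) h0 hrr (f := fun z => F (z, w)) countable_empty hc.continuousOn
        (fun z hz => h19_holz hF (hρ z (not_lt.1 fun hcon => hz.1.2
          (mem_closedBall_zero_iff.2 hcon.le)) (mem_ball_zero_iff.1 hz.1.1).le))
    rw [h19_avg_circle F h0 w, h19_avg_circle F h1 w] at h2
    exact (mul_left_cancel₀ hpi h2).symm

theorem h19_fib' (hf : HFacts ρ) {F : ℂ × ℂ → ℂ} (hF : CR ρ F) {r r' : ℝ} {w : ℂ} (hr : 0 ≤ r)
    (hr' : 0 ≤ r') (h : ∀ s ∈ uIcc r r', sl ρ (s, w) ≤ 0) : avg F r w = avg F r' w := by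
  rcases le_total r r' with h1 | h1
  · rw [uIcc_of_le h1] at h
    exact h19_fib hf hF hr h1 h
  · rw [uIcc_of_ge h1] at h
    exact (h19_fib hf hF hr' h1 h).symm

/-- derivative of a function of class `CR` along a horizontal segment -/
theorem h19_hasDerivAt_w {F : ℂ × ℂ → ℂ} (hF : CR ρ F) {z w h : ℂ} {t : ℝ}
    (hp : ρ (z, w + t * h) ≤ 0) :
    HasDerivAt (fun t : ℝ => F (z, w + t * h)) (h * Dw F (z, w + t * h)) t := by
  have e1 : HasDerivAt (fun t : ℝ => w + (t : ℂ) * h) h t := by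
    simpa using ((Complex.ofRealCLM.hasDerivAt (x := t)).mul_const h).const_add w
  have e2 : HasDerivAt (fun t : ℝ => (z, w + (t : ℂ) * h)) (0, h) t :=
    (hasDerivAt_const t z).prodMk e1
  have e3 := (h19_hasF hF (z, w + t * h)).comp_hasDerivAt t e2
  rw [h19_linw hF hp] at e3
  exact e3

/-- the Taylor estimates at one point of the circle -/
theorem h19_taylor {F : ℂ × ℂ → ℂ} (hF : CR ρ F) (hF1 : CR ρ (Dw F)) (hF2 : CR ρ (Dw (Dw F)))
    {M : ℝ} (hM : ∀ p, ρ p ≤ 0 → ‖Dw (Dw (Dw F)) p‖ ≤ M) {z w h : ℂ}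
    (hp : ∀ t ∈ Icc (0 : ℝ) 1, ρ (z, w + t * h) ≤ 0) :
    ∀ t ∈ Icc (0 : ℝ) 1,
      ‖Dw (Dw F) (z, w + t * h) - Dw (Dw F) (z, w)‖ ≤ M * ‖h‖ ∧
      ‖Dw F (z, w + t * h) - (Dw F (z, w) + Dw (Dw F) (z, w) * (t * h))‖ ≤ M * ‖h‖ ^ 2 ∧
      ‖F (z, w + t * h) - (F (z, w) + Dw F (z, w) * (t * h) +
        Dw (Dw F) (z, w) * (t * h) ^ 2 / 2)‖ ≤ M * ‖h‖ ^ 3 := by
  have hM0 : 0 ≤ M := by
    have := hp 0 ⟨le_rfl, zero_le_one⟩
    exact (norm_nonneg _).trans (hM _ this)
  have hof : ∀ t : ℝ, HasDerivAt (fun t : ℝ => (t : ℂ)) 1 t := fun t =>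
    Complex.ofRealCLM.hasDerivAt
  -- first estimate
  have s1 : ∀ t ∈ Icc (0 : ℝ) 1,
      ‖Dw (Dw F) (z, w + t * h) - Dw (Dw F) (z, w)‖ ≤ M * ‖h‖ := by
    intro t ht
    have h1 := norm_image_sub_le_of_norm_deriv_le_segment'
      (f := fun t : ℝ => Dw (Dw F) (z, w + t * h)) (a := 0) (b := 1) (C := M * ‖h‖)
      (fun x hx => (h19_hasDerivAt_w hF2 (hp x hx)).hasDerivWithinAt)
      (fun x hx => by
        rw [norm_mul, mul_comm]
        exact mul_le_mul_of_nonneg_right (hM _ (hp x ⟨hx.1, hx.2.le⟩)) (norm_nonneg _)) t ht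
    simp only [Complex.ofReal_zero, zero_mul, add_zero, sub_zero] at h1
    refine h1.trans ?_
    exact mul_le_of_le_one_right (by positivity) ht.2
  -- second estimate
  have s2 : ∀ t ∈ Icc (0 : ℝ) 1,
      ‖Dw F (z, w + t * h) - (Dw F (z, w) + Dw (Dw F) (z, w) * (t * h))‖ ≤ M * ‖h‖ ^ 2 := by
    intro t ht
    have h1 := norm_image_sub_le_of_norm_deriv_le_segment'
      (f := fun t : ℝ => Dw F (z, w + t * h) - Dw (Dw F) (z, w) * (t * h)) (a := 0) (b := 1)
      (f' := fun t : ℝ => h * Dw (Dw F) (z, w + t * h) - Dw (Dw F) (z, w) * (1 * h))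
      (C := M * ‖h‖ ^ 2)
      (fun x hx => ((h19_hasDerivAt_w hF1 (hp x hx)).sub
        (((hof x).mul_const h).const_mul _)).hasDerivWithinAt)
      (fun x hx => by
        have e1 : h * Dw (Dw F) (z, w + x * h) - Dw (Dw F) (z, w) * (1 * h) =
            h * (Dw (Dw F) (z, w + x * h) - Dw (Dw F) (z, w)) := by ring
        rw [e1, norm_mul]
        have e2 := s1 x ⟨hx.1, hx.2.le⟩
        calc ‖h‖ * ‖Dw (Dw F) (z, w + x * h) - Dw (Dw F) (z, w)‖ ≤ ‖h‖ * (M * ‖h‖) :=
              mul_le_mul_of_nonneg_left e2 (norm_nonneg _)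
          _ = M * ‖h‖ ^ 2 := by ring) t ht
    simp only [Complex.ofReal_zero, zero_mul, add_zero, sub_zero, mul_zero] at h1
    have e3 : Dw F (z, w + t * h) - (Dw F (z, w) + Dw (Dw F) (z, w) * (t * h)) =
        Dw F (z, w + t * h) - Dw (Dw F) (z, w) * (t * h) - Dw F (z, w) := by ring
    rw [e3]
    exact h1.trans (mul_le_of_le_one_right (by positivity) ht.2)
  -- third estimate
  have s3 : ∀ t ∈ Icc (0 : ℝ) 1,
      ‖F (z, w + t * h) - (F (z, w) + Dw F (z, w) * (t * h) +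
        Dw (Dw F) (z, w) * (t * h) ^ 2 / 2)‖ ≤ M * ‖h‖ ^ 3 := by
    intro t ht
    have h1 := norm_image_sub_le_of_norm_deriv_le_segment'
      (f := fun t : ℝ => F (z, w + t * h) - (Dw F (z, w) * (t * h) +
        Dw (Dw F) (z, w) * (t * h) ^ 2 / 2)) (a := 0) (b := 1)
      (f' := fun t : ℝ => h * Dw F (z, w + t * h) - (Dw F (z, w) * (1 * h) +
        Dw (Dw F) (z, w) * (2 * (t * h) ^ 1 * (1 * h)) / 2))
      (C := M * ‖h‖ ^ 3)
      (fun x hx => ((h19_hasDerivAt_w hF (hp x hx)).sub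
        ((((hof x).mul_const h).const_mul _).add
          (((((hof x).mul_const h).pow 2).const_mul _).div_const 2))).hasDerivWithinAt)
      (fun x hx => by
        have e1 : h * Dw F (z, w + x * h) - (Dw F (z, w) * (1 * h) +
            Dw (Dw F) (z, w) * (2 * (x * h) ^ 1 * (1 * h)) / 2) =
            h * (Dw F (z, w + x * h) - (Dw F (z, w) + Dw (Dw F) (z, w) * (x * h))) := by ring
        rw [e1, norm_mul]
        have e2 := s2 x ⟨hx.1, hx.2.le⟩
        calc ‖h‖ * ‖Dw F (z, w + x * h) - (Dw F (z, w) + Dw (Dw F) (z, w) * (x * h))‖ ≤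
              ‖h‖ * (M * ‖h‖ ^ 2) := mul_le_mul_of_nonneg_left e2 (norm_nonneg _)
          _ = M * ‖h‖ ^ 3 := by ring) t ht
    simp only [Complex.ofReal_zero, zero_mul, add_zero, sub_zero, mul_zero, ne_eq,
      OfNat.ofNat_ne_zero, not_false_eq_true, zero_pow, zero_div] at h1
    have e3 : F (z, w + t * h) - (F (z, w) + Dw F (z, w) * (t * h) +
        Dw (Dw F) (z, w) * (t * h) ^ 2 / 2) =
        F (z, w + t * h) - (Dw F (z, w) * (t * h) + Dw (Dw F) (z, w) * (t * h) ^ 2 / 2) -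
          F (z, w) := by ring
    rw [e3]
    exact h1.trans (mul_le_of_le_one_right (by positivity) ht.2)
  exact fun t ht => ⟨s1 t ht, s2 t ht, s3 t ht⟩

/-- averages of bounded functions -/
theorem h19_avg_le {E : ℝ → ℂ} {K : ℝ} (h : ∀ θ, ‖E θ‖ ≤ K) :
    ‖(2 * Real.pi : ℂ)⁻¹ * ∫ θ in (0 : ℝ)..(2 * Real.pi), E θ‖ ≤ K := by
  have h1 := intervalIntegral.norm_integral_le_of_norm_le_const (a := 0) (b := 2 * Real.pi)
    (C := K) (f := E) fun θ _ => h θ
  have hpi := Real.two_pi_pos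
  rw [sub_zero, abs_of_pos hpi] at h1
  rw [norm_mul, norm_inv]
  have h2 : ‖(2 * Real.pi : ℂ)‖ = 2 * Real.pi := by
    have : (2 * Real.pi : ℂ) = ((2 * Real.pi : ℝ) : ℂ) := by push_cast; rfl
    rw [this, Complex.norm_real, Real.norm_of_nonneg hpi.le]
  rw [h2, inv_mul_le_iff₀ hpi, mul_comm (2 * Real.pi) K]
  exact h1

theorem jetSys_of_CR (hf : HFacts ρ) {F : ℂ × ℂ → ℂ} (hF : CR ρ F) (hF1 : CR ρ (Dw F))
    (hF2 : CR ρ (Dw (Dw F))) :
    JetSys (sl ρ) (avg F) (avg (Dw F)) (avg (Dw (Dw F))) := by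
  have hbd : ∀ {G : ℂ × ℂ → ℂ}, Continuous G → ∃ C : ℝ, 0 ≤ C ∧ ∀ p, ρ p ≤ 0 → ‖G p‖ ≤ C := by
    intro G hG
    obtain ⟨C, hC⟩ := hf.cpt.exists_bound_of_continuousOn hG.continuousOn
    exact ⟨max C 0, le_max_right _ _, fun p hp => (hC p hp).trans (le_max_left _ _)⟩
  have hcirc : ∀ {r : ℝ} {w : ℂ}, sl ρ (r, w) ≤ 0 → ∀ θ : ℝ,
      ρ (r * Complex.exp (θ * I), w) ≤ 0 := by
    intro r w h θ
    rw [mul_comm]
    exact h19_circle hf h θ
  have hcc : ∀ {G : ℂ × ℂ → ℂ}, Continuous G → ∀ (r : ℝ) (w : ℂ),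
      Continuous fun θ : ℝ => G (r * Complex.exp (θ * I), w) := by
    intro G hG r w
    exact hG.comp (by fun_prop)
  refine ⟨?_, ?_, ?_⟩
  · intro r r' w hr hr' h
    exact ⟨h19_fib' hf hF hr hr' h, h19_fib' hf hF1 hr hr' h, h19_fib' hf hF2 hr hr' h⟩
  · obtain ⟨M, hM0, hM⟩ := hbd (h19_contDw hF2)
    refine ⟨M, hM0, fun r w w' hr h => ?_⟩
    set k : ℂ := w' - w with hk
    have hw' : w' = w + ((1 : ℝ) : ℂ) * k := by rw [hk]; push_cast; ring
    have key := fun θ : ℝ => h19_taylor hF hF1 hF2 hM (z := r * Complex.exp (θ * I)) (w := w)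
      (h := k) (fun t ht => hcirc (h t ht) θ) 1 ⟨zero_le_one, le_rfl⟩
    rw [← hw'] at key
    have i0 := fun (w : ℂ) => (hcc (h19_cont hF) r w).intervalIntegrable
      (μ := volume) 0 (2 * Real.pi)
    have i1 := fun (w : ℂ) => (hcc (h19_cont hF1) r w).intervalIntegrable
      (μ := volume) 0 (2 * Real.pi)
    have i2 := fun (w : ℂ) => (hcc (h19_cont hF2) r w).intervalIntegrable
      (μ := volume) 0 (2 * Real.pi)
    refine ⟨?_, ?_, ?_⟩
    · have e1 : avg F r w' - tpoly (avg F) (avg (Dw F)) (avg (Dw (Dw F))) r w w' =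
          (2 * Real.pi : ℂ)⁻¹ * ∫ θ in (0 : ℝ)..(2 * Real.pi),
            (F (r * Complex.exp (θ * I), w') - (F (r * Complex.exp (θ * I), w) +
              Dw F (r * Complex.exp (θ * I), w) * (((1 : ℝ) : ℂ) * k) +
              Dw (Dw F) (r * Complex.exp (θ * I), w) * (((1 : ℝ) : ℂ) * k) ^ 2 / 2)) := by
        rw [intervalIntegral.integral_sub (i0 w') (((i0 w).add ((i1 w).mul_const _)).add
          (((i2 w).mul_const _).div_const 2)),
          intervalIntegral.integral_add ((i0 w).add ((i1 w).mul_const _))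
          (((i2 w).mul_const _).div_const 2),
          intervalIntegral.integral_add (i0 w) ((i1 w).mul_const _),
          intervalIntegral.integral_mul_const, intervalIntegral.integral_div,
          intervalIntegral.integral_mul_const]
        simp only [tpoly, avg, ← hk]
        push_cast
        ring
      rw [e1]
      exact h19_avg_le fun θ => (key θ).2.2
    · have e1 : avg (Dw F) r w' - (avg (Dw F) r w + avg (Dw (Dw F)) r w * (w' - w)) =
          (2 * Real.pi : ℂ)⁻¹ * ∫ θ in (0 : ℝ)..(2 * Real.pi),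
            (Dw F (r * Complex.exp (θ * I), w') - (Dw F (r * Complex.exp (θ * I), w) +
              Dw (Dw F) (r * Complex.exp (θ * I), w) * (((1 : ℝ) : ℂ) * k))) := by
        rw [intervalIntegral.integral_sub (i1 w') ((i1 w).add ((i2 w).mul_const _)),
          intervalIntegral.integral_add (i1 w) ((i2 w).mul_const _),
          intervalIntegral.integral_mul_const]
        simp only [avg, ← hk]
        push_cast
        ring
      rw [e1]
      exact h19_avg_le fun θ => (key θ).2.1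
    · have e1 : avg (Dw (Dw F)) r w' - avg (Dw (Dw F)) r w =
          (2 * Real.pi : ℂ)⁻¹ * ∫ θ in (0 : ℝ)..(2 * Real.pi),
            (Dw (Dw F) (r * Complex.exp (θ * I), w') -
              Dw (Dw F) (r * Complex.exp (θ * I), w)) := by
        rw [intervalIntegral.integral_sub (i2 w') (i2 w)]
        simp only [avg]
        ring
      rw [e1]
      exact h19_avg_le fun θ => (key θ).1
  · obtain ⟨C0, hC0, h0⟩ := hbd (h19_cont hF)
    obtain ⟨C1, hC1, h1⟩ := hbd (h19_cont hF1)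
    obtain ⟨C2, hC2, h2⟩ := hbd (h19_cont hF2)
    refine ⟨C0 + C1 + C2, by positivity, fun r w hr h => ?_⟩
    have b0 : ‖avg F r w‖ ≤ C0 := h19_avg_le fun θ => h0 _ (hcirc h θ)
    have b1 : ‖avg (Dw F) r w‖ ≤ C1 := h19_avg_le fun θ => h1 _ (hcirc h θ)
    have b2 : ‖avg (Dw (Dw F)) r w‖ ≤ C2 := h19_avg_le fun θ => h2 _ (hcirc h θ)
    exact ⟨by linarith, by linarith, by linarith⟩

end Pool.Helper51.Hart
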